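import Pool.Agent.Helper73.LR.Stmts
import Pool.Agent.Helper51.HV.J

/-!
# From homothety to the equation for support functions (row SH of MP_a2630c_LR)
-/

open MeasureTheory Set Metric Real
open scoped RealInnerProductSpace ENNReal
open Pool.Agent.Helper16.Buoy (E cap centroid buoyancyBody Homothetic)
open Pool.Agent.Helper73.HV (supp)
open Pool.Agent.Helper73.LR
open Pool.Agent.Helper51.HV (int_on cap_meas cap_subset int_inner_cent)

namespace Pool.Agent.Helper92.LR

variable {n : ℕ} {K : Set (E n)}

/-- The positive part integral dominates the integral over any part of `K`. -/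
theorem sh_le (hK : IsCompact K) (u : E n) (t : ℝ) {C : Set (E n)} (hC : C ⊆ K)
    (hCm : MeasurableSet C) : ∫ x in C, (inner ℝ u x - t) ≤ GG K u t := by
  unfold GG
  have h1 : ∫ x in C, (inner ℝ u x - t) ≤ ∫ x in C, max (inner ℝ u x - t) 0 := by
    apply setIntegral_mono_on
    · exact (int_on hK (f := fun x => inner ℝ u x - t) (by fun_prop)).mono_set hC
    · exact (int_on hK (f := fun x => max (inner ℝ u x - t) 0) (by fun_prop)).mono_set hC
    · exact hCm
    · intro x _
      exact le_max_left _ _
  refine h1.trans ?_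
  apply setIntegral_mono_set
  · exact int_on hK (f := fun x => max (inner ℝ u x - t) 0) (by fun_prop)
  · exact Filter.Eventually.of_forall fun x => le_max_right _ _
  · exact Filter.Eventually.of_forall hC

/-- Equality for the cap at level `t`. -/
theorem sh_eq (hK : IsCompact K) (u : E n) (t : ℝ) :
    ∫ x in cap K u t, (inner ℝ u x - t) = GG K u t := by
  unfold GG
  have hm : MeasurableSet {x : E n | t ≤ inner ℝ u x} :=
    measurableSet_le measurable_const (by fun_prop)
  rw [← integral_inter_add_sdiff (f := fun x => max (inner ℝ u x - t) 0) hm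
    (int_on hK (f := fun x => max (inner ℝ u x - t) 0) (by fun_prop))]
  have h2 : ∫ x in K \ {x | t ≤ inner ℝ u x}, max (inner ℝ u x - t) 0 = 0 := by
    rw [setIntegral_congr_fun (g := fun _ => 0) (hK.measurableSet.diff hm)]
    · simp
    · rintro x ⟨_, hx⟩
      simp only [mem_ofPred_eq, not_le] at hx
      exact max_eq_right (by linarith)
  rw [h2, add_zero]
  apply setIntegral_congr_fun
  · exact hK.measurableSet.inter hm
  · intro x hx
    have h3 : t ≤ inner ℝ u x := hx.2
    exact (max_eq_left (by linarith)).symm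

/-- Integral over a set of volume `d`. -/
theorem sh_int (hK : IsCompact K) (u : E n) (t : ℝ) {C : Set (E n)} (hC : C ⊆ K) {d : ℝ}
    (hd : 0 < d) (hv : volume C = ENNReal.ofReal d) :
    ∫ x in C, (inner ℝ u x - t) = d * inner ℝ u (centroid C) - d * t := by
  have h1 := int_inner_cent hK u 0 hC hd hv
  simp only [sub_zero] at h1
  have hi : IntegrableOn (fun x : E n => (inner ℝ u x : ℝ)) C :=
    (int_on hK (f := fun x : E n => (inner ℝ u x : ℝ)) (by fun_prop)).mono_set hC
  have hi2 : IntegrableOn (fun _ : E n => t) C :=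
    (int_on hK (f := fun _ : E n => t) (by fun_prop)).mono_set hC
  rw [integral_sub hi hi2, h1, setIntegral_const, measureReal_def, hv,
    ENNReal.toReal_ofReal hd.le, smul_eq_mul]

theorem sol_of_hom (hl : S_level) : S_sol_of_hom := by
  intro n K hn hK d hd hdv hom
  obtain ⟨p, c, hc, hB⟩ := hom
  have hne : K.Nonempty := hK.int.mono interior_subset
  have hcomp := hK.comp
  refine ⟨c, (1 - c) • p, hc, ?_⟩
  intro u hu
  have hu0 : u ≠ 0 := by
    rintro rfl
    simp at hu
  obtain ⟨τ, hτ⟩ := (hl hK hd hdv hu0).1
  refine ⟨τ, hτ, ?_⟩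
  set S : Set (E n) := {c | ∃ u : E n, ‖u‖ = 1 ∧ ∃ t : ℝ,
    volume (cap K u t) = ENNReal.ofReal d ∧ c = centroid (cap K u t)} with hS
  have hBS : buoyancyBody K d = convexHull ℝ S := rfl
  have hup : ∀ y ∈ buoyancyBody K d, d * inner ℝ u y ≤ GG K u τ + d * τ := by
    have : convexHull ℝ S ⊆ {y | d * inner ℝ u y ≤ GG K u τ + d * τ} := by
      refine convexHull_min ?_ ?_
      · rintro _ ⟨u', hu', t, hv, rfl⟩
        show d * inner ℝ u (centroid (cap K u' t)) ≤ _
        have h1 := sh_int hcomp u τ (cap_subset u' t) hd hv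
        have h2 := sh_le hcomp u τ (cap_subset u' t) (cap_meas hcomp u' t)
        linarith
      · intro y1 h1 y2 h2 a b ha hb hab
        have h1' : d * inner ℝ u y1 ≤ GG K u τ + d * τ := h1
        have h2' : d * inner ℝ u y2 ≤ GG K u τ + d * τ := h2
        show d * inner ℝ u (a • y1 + b • y2) ≤ GG K u τ + d * τ
        rw [inner_add_right, inner_smul_right, inner_smul_right]
        obtain rfl : b = 1 - a := by linarith
        nlinarith
    exact fun y hy => this hy
  have hc1 : d * inner ℝ u (centroid (cap K u τ)) = GG K u τ + d * τ := by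
    have h1 := sh_int hcomp u τ (cap_subset u τ) hd hτ
    have h2 := sh_eq hcomp u τ
    linarith
  have hc2 : centroid (cap K u τ) ∈ buoyancyBody K d := by
    rw [hBS]
    exact subset_convexHull _ _ ⟨u, hu, τ, hτ, rfl⟩
  have hsup : supp K u = (c⁻¹) * (inner ℝ u (centroid (cap K u τ)) - (1 - c) * inner ℝ u p) := by
    unfold supp
    apply IsGreatest.csSup_eq
    have hmap : ∀ x, inner ℝ u (p + c • (x - p)) = c * inner ℝ u x + (1 - c) * inner ℝ u p := by
      intro x
      rw [inner_add_right, inner_smul_right, inner_sub_right]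
      ring
    constructor
    · rw [← hB] at hc2
      obtain ⟨x, hx, he⟩ := hc2
      refine ⟨x, hx, ?_⟩
      have h1 := hmap x
      have he' : p + c • (x - p) = centroid (cap K u τ) := he
      rw [he'] at h1
      show inner ℝ u x = _
      rw [h1]
      field_simp
      ring
    · rintro _ ⟨x, hx, rfl⟩
      show inner ℝ u x ≤ _
      have h1 : p + c • (x - p) ∈ buoyancyBody K d := by
        rw [← hB]; exact ⟨x, hx, rfl⟩
      have h2 := hup _ h1
      rw [hmap, ← hc1] at h2
      have h3 : c * inner ℝ u x + (1 - c) * inner ℝ u p ≤ inner ℝ u (centroid (cap K u τ)) :=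
        le_of_mul_le_mul_left h2 hd
      rw [inv_mul_eq_div, le_div_iff₀ hc]
      linarith
  rw [← hc1, hsup, inner_smul_left]
  simp only [conj_trivial]
  rw [real_inner_comm u p]
  field_simp
  ring

end Pool.Agent.Helper92.LR
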