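import Pool.Agent.Helper73.LR.Stmts
import Pool.Agent.Helper51.HV.J
import Pool.Agent.Helper35.HV.Iso
import Pool.Agent.Helper92.LR.Sh

/-!
# The multiplier of degree two (row MU2 of MP_a2630c_LR)
-/

open MeasureTheory Set Metric Real
open scoped RealInnerProductSpace ENNReal Pointwise
open Pool.Agent.Helper16.Buoy (E cap)
open Pool.Agent.Helper73.HV (supp)
open Pool.Agent.Helper73.LR
open Pool.Agent.Helper51.HV (int_on cap_meas cap_subset)
open Pool.Agent.Helper35.HV (integral_image)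

namespace Pool.Agent.Helper92.LR

variable {n : ℕ}

/-- The stretch by `1 + h` in the direction `a`. -/
noncomputable def str (a : E n) (h : ℝ) : E n →ₗ[ℝ] E n :=
  LinearMap.transvection (innerₗ (E n) a) (h • a)

theorem str_apply (a : E n) (h : ℝ) (x : E n) : str a h x = x + (h * inner ℝ a x) • a := by
  unfold str
  rw [LinearMap.transvection.apply, innerₗ_apply_apply, smul_smul, mul_comm]

theorem str_inner {a : E n} (ha : ‖a‖ = 1) (h : ℝ) (x : E n) :
    inner ℝ a (str a h x) = (1 + h) * inner ℝ a x := by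
  rw [str_apply, inner_add_right, inner_smul_right, real_inner_self_eq_norm_sq, ha]
  ring

theorem str_comp {a : E n} (ha : ‖a‖ = 1) {h k : ℝ} (hk : (1 + h) * (1 + k) = 1) (x : E n) :
    str a h (str a k x) = x := by
  rw [str_apply, str_inner ha, str_apply, add_assoc, ← add_smul]
  have : k * inner ℝ a x + h * ((1 + k) * inner ℝ a x) = 0 := by
    have : k * inner ℝ a x + h * ((1 + k) * inner ℝ a x)
      = ((1 + h) * (1 + k) - 1) * inner ℝ a x := by ring
    rw [this, hk]
    ring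
  rw [this, zero_smul, add_zero]

/-- The stretch as a continuous linear equivalence. -/
noncomputable def strE {a : E n} (ha : ‖a‖ = 1) {h : ℝ} (hh : 0 < 1 + h) : E n ≃L[ℝ] E n :=
  (LinearEquiv.ofLinearMap (str a h) (str a ((1 + h)⁻¹ - 1))
    (by
      apply LinearMap.ext
      intro x
      exact str_comp ha (by rw [add_sub_cancel, mul_inv_cancel₀ hh.ne']) x)
    (by
      apply LinearMap.ext
      intro x
      exact str_comp ha (by rw [add_sub_cancel, inv_mul_cancel₀ hh.ne']) x)).toContinuousLinearEquiv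

theorem strE_apply {a : E n} (ha : ‖a‖ = 1) {h : ℝ} (hh : 0 < 1 + h) (x : E n) :
    strE ha hh x = x + (h * inner ℝ a x) • a := str_apply a h x

theorem strE_symm {a : E n} (ha : ‖a‖ = 1) {h : ℝ} (hh : 0 < 1 + h) (x : E n) :
    (strE ha hh).symm x = x + (((1 + h)⁻¹ - 1) * inner ℝ a x) • a := str_apply a _ x

theorem strE_det {a : E n} (ha : ‖a‖ = 1) {h : ℝ} (hh : 0 < 1 + h) :
    ((strE ha hh : E n ≃L[ℝ] E n) : E n →L[ℝ] E n).det = 1 + h := by
  have h1 : LinearMap.det (str a h) = 1 + h := by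
    unfold str
    rw [LinearMap.transvection.det, innerₗ_apply_apply, inner_smul_right,
      real_inner_self_eq_norm_sq, ha]
    ring
  rw [← h1]
  rfl

theorem strE_norm_le {a : E n} (ha : ‖a‖ = 1) {h : ℝ} (hh : 0 < 1 + h) (x : E n) :
    ‖strE ha hh x‖ ≤ (1 + |h|) * ‖x‖ := by
  rw [strE_apply]
  refine (norm_add_le _ _).trans ?_
  rw [norm_smul, ha, mul_one, Real.norm_eq_abs, abs_mul]
  have h1 := abs_real_inner_le_norm a x
  rw [ha, one_mul] at h1
  nlinarith [abs_nonneg h]

theorem strE_norm_ge {a : E n} (ha : ‖a‖ = 1) {h : ℝ} (hh : 0 < 1 + h) (x : E n) :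
    (1 - |h|) * ‖x‖ ≤ ‖strE ha hh x‖ := by
  rw [strE_apply]
  have h2 := norm_sub_le (x + (h * inner ℝ a x) • a) ((h * inner ℝ a x) • a)
  rw [add_sub_cancel_right, norm_smul, ha, mul_one, Real.norm_eq_abs, abs_mul] at h2
  have h1 := abs_real_inner_le_norm a x
  rw [ha, one_mul] at h1
  nlinarith [abs_nonneg h]

/-- The stretched ball. -/
noncomputable def KK {a : E n} (ha : ‖a‖ = 1) {h : ℝ} (hh : 0 < 1 + h) : Set (E n) :=
  strE ha hh '' BB n

theorem KK_cb {a : E n} (ha : ‖a‖ = 1) {h : ℝ} (hh : 0 < 1 + h) : CB (KK ha hh) where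
  conv := (convex_closedBall (0 : E n) 1).linear_image ((strE ha hh : E n ≃L[ℝ] E n) : E n →ₗ[ℝ] E n)
  comp := (isCompact_closedBall (0 : E n) 1).image (strE ha hh).continuous
  int := by
    have h1 := (strE ha hh).toHomeomorph.image_interior (BB n)
    have h2 : ((strE ha hh).toHomeomorph '' interior (BB n)).Nonempty := by
      apply Set.Nonempty.image
      refine ⟨0, ?_⟩
      rw [mem_interior_iff_mem_nhds]
      exact closedBall_mem_nhds _ one_pos
    rw [h1] at h2
    exact h2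

theorem KK_near {a : E n} (ha : ‖a‖ = 1) {h : ℝ} (hh : 0 < 1 + h) (h1 : |h| ≤ 1 / 2) :
    Near (KK ha hh) |h| := by
  constructor
  · intro y hy
    refine ⟨(strE ha hh).symm y, ?_, by simp⟩
    have h2 := strE_norm_ge ha hh ((strE ha hh).symm y)
    rw [ContinuousLinearEquiv.apply_symm_apply] at h2
    rw [mem_closedBall_zero_iff] at hy ⊢
    have h3 : (1 - |h|) * ‖(strE ha hh).symm y‖ ≤ (1 - |h|) * 1 := by linarith
    exact le_of_mul_le_mul_left h3 (by linarith)
  · rintro _ ⟨x, hx, rfl⟩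
    have h2 := strE_norm_le ha hh x
    rw [mem_closedBall_zero_iff] at hx ⊢
    nlinarith [abs_nonneg h]

theorem KK_gauge {a : E n} (ha : ‖a‖ = 1) {h : ℝ} (hh : 0 < 1 + h) {v : E n} (hv : ‖v‖ = 1) :
    gauge (KK ha hh) v = ‖(strE ha hh).symm v‖ := by
  have hpos : 0 < ‖(strE ha hh).symm v‖ := by
    rw [norm_pos_iff]
    intro h0
    have := (strE ha hh).apply_symm_apply v
    rw [h0, map_zero] at this
    rw [← this] at hv
    simp at hv
  have hset : {r : ℝ | r ∈ Ioi (0 : ℝ) ∧ v ∈ r • KK ha hh} = Ici ‖(strE ha hh).symm v‖ := by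
    ext r
    simp only [mem_ofPred_eq, mem_Ioi, mem_Ici]
    constructor
    · rintro ⟨hr, y, ⟨x, hx, rfl⟩, rfl⟩
      show ‖(strE ha hh).symm (r • strE ha hh x)‖ ≤ r
      rw [map_smul, ContinuousLinearEquiv.symm_apply_apply, norm_smul, Real.norm_eq_abs,
        abs_of_pos hr]
      rw [mem_closedBall_zero_iff] at hx
      nlinarith
    · intro hr
      have hr0 : 0 < r := hpos.trans_le hr
      refine ⟨hr0, r⁻¹ • v, ⟨r⁻¹ • (strE ha hh).symm v, ?_, ?_⟩, ?_⟩
      · rw [mem_closedBall_zero_iff, norm_smul, norm_inv, Real.norm_eq_abs, abs_of_pos hr0,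
          inv_mul_le_one₀ hr0]
        exact hr
      · rw [map_smul, ContinuousLinearEquiv.apply_symm_apply]
      · show r • (r⁻¹ • v) = v
        rw [smul_smul, mul_inv_cancel₀ hr0.ne', one_smul]
  rw [gauge_def, hset, csInf_Ici]

theorem KK_sq {a : E n} (ha : ‖a‖ = 1) {h : ℝ} (hh : 0 < 1 + h) {v : E n} (hv : ‖v‖ = 1) :
    (1 + h) ^ 2 * ‖(strE ha hh).symm v‖ ^ 2 = (1 + h) ^ 2 - (2 * h + h ^ 2) * (inner ℝ a v) ^ 2 := by
  rw [strE_symm, norm_add_sq_real, hv, norm_smul, ha, inner_smul_right, real_inner_comm a v,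
    Real.norm_eq_abs, mul_one, sq_abs]
  field_simp
  ring

theorem real_est {h y p : ℝ} (h1 : |h| ≤ 1 / 2) (hy0 : 0 ≤ y) (hy1 : y ≤ 1) (hp : 0 < p)
    (he : (1 + h) ^ 2 * p ^ 2 = (1 + h) ^ 2 - (2 * h + h ^ 2) * y) :
    |p⁻¹ - 1 - h * y| ≤ 108 * h ^ 2 := by
  rw [abs_le] at h1
  obtain ⟨h2, h3⟩ := h1
  have hq : (1 : ℝ) / 4 ≤ (1 + h) ^ 2 := by nlinarith
  have hq2 : (1 + h) ^ 2 ≤ 9 / 4 := by nlinarith
  have hp3 : (1 : ℝ) / 3 ≤ p := by
    by_contra hc
    push Not at hc
    have h4 : p ^ 2 < 1 / 9 := by nlinarith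
    have h5 : (1 + h) ^ 2 * p ^ 2 < 1 / 4 := by nlinarith
    have h6 : (1 + h) ^ 2 - (2 * h + h ^ 2) * y = (1 + h) ^ 2 * (1 - y) + y := by ring
    rw [he, h6] at h5
    nlinarith
  set m : ℝ := 1 + h * y with hm
  have hm0 : 0 < m := by nlinarith
  have hid : (1 + h) ^ 2 * (m ^ 2 * p ^ 2 - 1) = h ^ 2 *
      (3 * y + 2 * h * y - 3 * y ^ 2 + h ^ 2 * y ^ 2 - 2 * h * y ^ 3 - h ^ 2 * y ^ 3) := by
    have : (1 + h) ^ 2 * (m ^ 2 * p ^ 2 - 1) = m ^ 2 * ((1 + h) ^ 2 * p ^ 2) - (1 + h) ^ 2 := by ring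
    rw [this, he, hm]
    ring
  have hR : |3 * y + 2 * h * y - 3 * y ^ 2 + h ^ 2 * y ^ 2 - 2 * h * y ^ 3 - h ^ 2 * y ^ 3| ≤ 9 := by
    have hy2 : y ^ 2 ≤ 1 := by nlinarith
    have hy3 : y ^ 3 ≤ 1 := by
      have : y ^ 3 = y * y ^ 2 := by ring
      nlinarith [sq_nonneg y]
    have hy20 : 0 ≤ y ^ 2 := by positivity
    have hy30 : 0 ≤ y ^ 3 := by positivity
    have hh2 : h ^ 2 ≤ 1 / 4 := by nlinarith
    have e1 : |2 * h * y| ≤ 1 := by
      rw [abs_le]; constructor <;> nlinarith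
    have e2 : |h ^ 2 * y ^ 2| ≤ 1 / 4 := by
      rw [abs_of_nonneg (by positivity)]; nlinarith [sq_nonneg h]
    have e3 : |2 * h * y ^ 3| ≤ 1 := by
      rw [abs_le]; constructor <;> nlinarith
    have e4 : |h ^ 2 * y ^ 3| ≤ 1 / 4 := by
      rw [abs_of_nonneg (by positivity)]; nlinarith [sq_nonneg h]
    rw [abs_le] at e1 e2 e3 e4 ⊢
    constructor
    · linarith [e1.1, e2.1, e3.2, e4.2]
    · linarith [e1.2, e2.2, e3.1, e4.1]
  have h7 : |m ^ 2 * p ^ 2 - 1| ≤ 36 * h ^ 2 := by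
    have h8 : (1 + h) ^ 2 * |m ^ 2 * p ^ 2 - 1| ≤ 9 * h ^ 2 := by
      rw [← abs_of_nonneg (sq_nonneg (1 + h)), ← abs_mul, hid, abs_mul, abs_of_nonneg (sq_nonneg h)]
      nlinarith [sq_nonneg h]
    nlinarith [abs_nonneg (m ^ 2 * p ^ 2 - 1)]
  have hmp : 0 < m * p := mul_pos hm0 hp
  have h9 : |m * p - 1| ≤ 36 * h ^ 2 := by
    have h10 : |m ^ 2 * p ^ 2 - 1| = |m * p - 1| * (m * p + 1) := by
      rw [← abs_of_pos (show 0 < m * p + 1 by linarith), ← abs_mul]
      congr 1
      ring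
    rw [h10] at h7
    nlinarith [abs_nonneg (m * p - 1)]
  have h11 : p⁻¹ - 1 - h * y = -((m * p - 1) * p⁻¹) := by
    rw [hm]
    field_simp
    ring
  rw [h11, abs_neg, abs_mul, abs_of_pos (inv_pos.2 hp)]
  have h12 : p⁻¹ ≤ 3 := by
    rw [inv_le_comm₀ hp (by norm_num)]
    linarith
  have h13 : 0 < p⁻¹ := inv_pos.2 hp
  nlinarith [abs_nonneg (m * p - 1), sq_nonneg h]

theorem KK_rad {a : E n} (ha : ‖a‖ = 1) {h : ℝ} (hh : 0 < 1 + h) (h1 : |h| ≤ 1 / 2) {v : E n}
    (hv : ‖v‖ = 1) : |rad (KK ha hh) v - 1 - h * (inner ℝ a v) ^ 2| ≤ 108 * h ^ 2 := by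
  unfold rad
  rw [KK_gauge ha hh hv]
  have hpos : 0 < ‖(strE ha hh).symm v‖ := by
    rw [norm_pos_iff]
    intro h0
    have := (strE ha hh).apply_symm_apply v
    rw [h0, map_zero] at this
    rw [← this] at hv
    simp at hv
  refine real_est h1 (sq_nonneg _) ?_ hpos (KK_sq ha hh hv)
  have h2 := abs_real_inner_le_norm a v
  rw [ha, hv, one_mul] at h2
  rw [← sq_abs]
  nlinarith [abs_nonneg (inner ℝ a v : ℝ)]

theorem KK_rad_cont {a : E n} (ha : ‖a‖ = 1) {h : ℝ} (hh : 0 < 1 + h) :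
    Continuous (fun v : SS n => rad (KK ha hh) v) := by
  have h1 : (fun v : SS n => rad (KK ha hh) v) = fun v : SS n => ‖(strE ha hh).symm (v : E n)‖⁻¹ := by
    funext v
    unfold rad
    rw [KK_gauge ha hh (mem_sphere_zero_iff_norm.1 v.2)]
  rw [h1]
  apply Continuous.inv₀
  · fun_prop
  · intro v h0
    rw [norm_eq_zero] at h0
    have h2 := (strE ha hh).apply_symm_apply (v : E n)
    rw [h0, map_zero] at h2
    have h3 := mem_sphere_zero_iff_norm.1 v.2
    rw [← h2] at h3
    simp at h3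

instance sg_fin : IsFiniteMeasure (sg n) := by
  unfold sg
  infer_instance

theorem sg_int {f : SS n → ℝ} (hf : Continuous f) : Integrable f (sg n) := by
  have h1 : IntegrableOn f univ (sg n) := hf.continuousOn.integrableOn_compact isCompact_univ
  rwa [integrableOn_univ] at h1

/-- First order expansion for the stretched ball. -/
theorem KK_shell (hs : S_shell) (hn : 1 ≤ n) {v : E n} (hv : ‖v‖ = 1) {t : ℝ} (ht : |t| ≤ 1) :
    ∃ C : ℝ, ∀ {a : E n} (ha : ‖a‖ = 1) {h : ℝ} (hh : 0 < 1 + h), |h| ≤ 1 / 2 →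
      |GG (KK ha hh) v t - GG (BB n) v t -
        h * ∫ x : SS n, max (inner ℝ v (x : E n) - t) 0 * (inner ℝ a (x : E n)) ^ 2 ∂(sg n)|
        ≤ C * h ^ 2 := by
  obtain ⟨C, hC, hC2⟩ := hs n hn
  refine ⟨C * (1 + 3) + 3 * 108 * (sg n).real univ, ?_⟩
  intro a ha h hh h1
  set F : E n → ℝ := fun x => max (inner ℝ v x - t) 0 with hF
  have hFl : ∀ x y : E n, |F x - F y| ≤ 1 * ‖x - y‖ := by
    intro x y
    rw [one_mul]
    have h2 : |F x - F y| ≤ |(inner ℝ v x - t) - (inner ℝ v y - t)| :=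
      abs_max_sub_max_le_abs _ _ _
    refine h2.trans ?_
    have h3 : (inner ℝ v x - t) - (inner ℝ v y - t) = inner ℝ v (x - y) := by
      rw [inner_sub_right]; ring
    rw [h3]
    have h4 := abs_real_inner_le_norm v (x - y)
    rwa [hv, one_mul] at h4
  have hFb : ∀ x : E n, ‖x‖ ≤ 2 → |F x| ≤ 3 := by
    intro x hx
    have h4 := abs_real_inner_le_norm v x
    rw [hv, one_mul] at h4
    have h5 : |F x| ≤ |inner ℝ v x - t| := by
      rw [hF]
      show |max (inner ℝ v x - t) 0| ≤ _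
      rw [abs_of_nonneg (le_max_right _ _)]
      exact max_le (le_abs_self _) (abs_nonneg _)
    refine h5.trans ((abs_sub _ _).trans ?_)
    linarith
  have h2 := hC2 (KK_cb ha hh) (abs_nonneg h) h1 (KK_near ha hh h1) F 1 3 zero_le_one
    (fun x _ y _ => hFl x y) (fun x hx => hFb x (mem_closedBall_zero_iff.1 hx))
  rw [sq_abs] at h2
  have hFc : Continuous F := by
    rw [hF]; fun_prop
  have hr := KK_rad_cont ha hh
  have i1 : Integrable (fun x : SS n => F x * (rad (KK ha hh) x - 1)) (sg n) := by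
    apply sg_int
    fun_prop
  have i2 : Integrable (fun x : SS n => h * (F x * (inner ℝ a (x : E n)) ^ 2)) (sg n) := by
    apply sg_int
    fun_prop
  have h3 : |(∫ x : SS n, F x * (rad (KK ha hh) x - 1) ∂(sg n)) -
      h * ∫ x : SS n, F x * (inner ℝ a (x : E n)) ^ 2 ∂(sg n)| ≤ 3 * 108 * (sg n).real univ * h ^ 2 := by
    rw [← integral_const_mul, ← integral_sub i1 i2]
    have h4 : ∀ x : SS n, ‖F x * (rad (KK ha hh) x - 1) - h * (F x * (inner ℝ a (x : E n)) ^ 2)‖
        ≤ 3 * (108 * h ^ 2) := by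
      intro x
      have hx := mem_sphere_zero_iff_norm.1 x.2
      have e1 : F x * (rad (KK ha hh) x - 1) - h * (F x * (inner ℝ a (x : E n)) ^ 2)
        = F x * (rad (KK ha hh) x - 1 - h * (inner ℝ a (x : E n)) ^ 2) := by ring
      rw [e1, Real.norm_eq_abs, abs_mul]
      exact mul_le_mul (hFb x (by rw [hx]; norm_num)) (KK_rad ha hh h1 hx) (abs_nonneg _)
        (by norm_num)
    have h5 := norm_integral_le_of_norm_le_const (μ := sg n) (Filter.Eventually.of_forall h4)
    rw [Real.norm_eq_abs] at h5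
    linarith
  have h6 : GG (KK ha hh) v t = ∫ x in KK ha hh, F x := rfl
  have h7 : GG (BB n) v t = ∫ x in BB n, F x := rfl
  rw [h6, h7]
  have h8 := abs_sub_abs_le_abs_sub
    ((∫ x in KK ha hh, F x) - (∫ x in BB n, F x) - h * ∫ x : SS n, F x * (inner ℝ a (x : E n)) ^ 2 ∂(sg n))
    ((∫ x : SS n, F x * (rad (KK ha hh) x - 1) ∂(sg n)) -
      h * ∫ x : SS n, F x * (inner ℝ a (x : E n)) ^ 2 ∂(sg n))
  have h9 : ((∫ x in KK ha hh, F x) - (∫ x in BB n, F x) -
      h * ∫ x : SS n, F x * (inner ℝ a (x : E n)) ^ 2 ∂(sg n)) -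
      ((∫ x : SS n, F x * (rad (KK ha hh) x - 1) ∂(sg n)) -
      h * ∫ x : SS n, F x * (inner ℝ a (x : E n)) ^ 2 ∂(sg n)) =
      (∫ x in KK ha hh, F x) - (∫ x in BB n, F x) - ∫ x : SS n, F x * (rad (KK ha hh) x - 1) ∂(sg n) := by
    ring
  rw [h9] at h8
  linarith

theorem small_le {x C : ℝ} (h : ∀ s : ℝ, 0 < s → s ≤ 1 / 2 → x ≤ C * s) : x ≤ 0 := by
  by_contra hc
  push Not at hc
  have h1 := h (1 / 2) (by norm_num) le_rfl
  have hC : 0 < C := by nlinarith
  have h2 := h (min (1 / 2) (x / (2 * C))) (by positivity) (min_le_left _ _)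
  have h3 : C * min (1 / 2) (x / (2 * C)) ≤ C * (x / (2 * C)) :=
    mul_le_mul_of_nonneg_left (min_le_right _ _) hC.le
  have h4 : C * (x / (2 * C)) = x / 2 := by field_simp
  linarith

/-- Stretching orthogonally to `v`. -/
theorem stretch_w {a v : E n} (ha : ‖a‖ = 1) {h : ℝ} (hh : 0 < 1 + h) (hav : inner ℝ v a = 0)
    (t : ℝ) : GG (KK ha hh) v t = (1 + h) * GG (BB n) v t := by
  unfold GG KK
  rw [integral_image (strE ha hh) (isCompact_closedBall (0 : E n) 1), strE_det, abs_of_pos hh]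
  congr 1
  apply integral_congr_ae
  refine Filter.Eventually.of_forall fun x => ?_
  show max (inner ℝ v (strE ha hh x) - t) 0 = max (inner ℝ v x - t) 0
  rw [strE_apply, inner_add_right, inner_smul_right, hav, mul_zero, add_zero]

/-- Stretching along `v`. -/
theorem stretch_v {v : E n} (hv : ‖v‖ = 1) {h : ℝ} (hh : 0 < 1 + h) (t : ℝ) :
    (1 + h) * (GG (BB n) v t + h * ∫ x in cap (BB n) v t, inner ℝ v x) ≤ GG (KK hv hh) v t := by
  have hcomp : IsCompact (BB n) := isCompact_closedBall (0 : E n) 1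
  have h0 : GG (KK hv hh) v t = (1 + h) * ∫ x in BB n, max ((1 + h) * inner ℝ v x - t) 0 := by
    unfold GG KK
    rw [integral_image (strE hv hh) hcomp, strE_det, abs_of_pos hh]
    congr 1
    apply integral_congr_ae
    refine Filter.Eventually.of_forall fun x => ?_
    show max (inner ℝ v (strE hv hh x) - t) 0 = max ((1 + h) * inner ℝ v x - t) 0
    rw [strE_apply, inner_add_right, inner_smul_right, real_inner_self_eq_norm_sq, hv]
    congr 1
    ring
  rw [h0]
  apply mul_le_mul_of_nonneg_left _ hh.le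
  have hsub := cap_subset (K := BB n) v t
  have hms := cap_meas hcomp v t
  rw [← sh_eq hcomp v t, ← integral_const_mul]
  have i1 : IntegrableOn (fun x : E n => inner ℝ v x - t) (cap (BB n) v t) :=
    (int_on hcomp (f := fun x => inner ℝ v x - t) (by fun_prop)).mono_set hsub
  have i2 : IntegrableOn (fun x : E n => h * inner ℝ v x) (cap (BB n) v t) :=
    (int_on hcomp (f := fun x => h * inner ℝ v x) (by fun_prop)).mono_set hsub
  rw [← integral_add i1 i2]
  have i3 : IntegrableOn (fun x : E n => max ((1 + h) * inner ℝ v x - t) 0) (BB n) :=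
    int_on hcomp (f := fun x => max ((1 + h) * inner ℝ v x - t) 0) (by fun_prop)
  calc ∫ x in cap (BB n) v t, (inner ℝ v x - t + h * inner ℝ v x)
      ≤ ∫ x in cap (BB n) v t, max ((1 + h) * inner ℝ v x - t) 0 := by
        apply setIntegral_mono_on (i1.add i2) (i3.mono_set hsub) hms
        intro x _
        show inner ℝ v x - t + h * inner ℝ v x ≤ max ((1 + h) * inner ℝ v x - t) 0
        refine le_trans (le_of_eq ?_) (le_max_left _ _)
        ring
    _ ≤ ∫ x in BB n, max ((1 + h) * inner ℝ v x - t) 0 := by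
        apply setIntegral_mono_set i3
        · exact Filter.Eventually.of_forall fun x => le_max_right _ _
        · exact Filter.Eventually.of_forall hsub

/-- The cap of the ball has positive volume. -/
theorem cap_pos {v : E n} (hv : ‖v‖ = 1) {t : ℝ} (h1 : -1 < t) (h2 : t < 1) :
    0 < volume (cap (BB n) v t) := by
  set U : Set (E n) := ball 0 1 ∩ {x | t < inner ℝ v x} with hU
  have hUo : IsOpen U := isOpen_ball.inter (isOpen_lt continuous_const (by fun_prop))
  have hUn : U.Nonempty := by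
    refine ⟨((1 + t) / 2) • v, ?_, ?_⟩
    · rw [mem_ball_zero_iff, norm_smul, hv, mul_one, Real.norm_eq_abs, abs_of_pos (by linarith)]
      linarith
    · show t < inner ℝ v (((1 + t) / 2) • v)
      rw [inner_smul_right, real_inner_self_eq_norm_sq, hv]
      linarith
  refine (hUo.measure_pos volume hUn).trans_le (measure_mono ?_)
  rintro x ⟨hx1, hx2⟩
  have hx3 : t < inner ℝ v x := hx2
  exact ⟨ball_subset_closedBall hx1, hx3.le⟩

theorem mult_two (hs : S_shell) : S_mult_two := by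
  intro n hn v w hv hw hvw θ t H hB
  obtain ⟨ht1, ht2, hH, hcap⟩ := hB
  obtain ⟨hvol, hGG⟩ := hcap v hv
  have hcomp : IsCompact (BB n) := isCompact_closedBall (0 : E n) 1
  have hd : 0 < θ * vol (BB n) := by
    by_contra hc
    have h1 := cap_pos hv ht1 ht2
    rw [hvol, ENNReal.ofReal_of_nonpos (not_lt.1 hc)] at h1
    exact lt_irrefl _ h1
  obtain ⟨C, hC⟩ := KK_shell hs (by omega : 1 ≤ n) hv (t := t) (by rw [abs_le]; constructor <;> linarith)
  set G : ℝ := GG (BB n) v t with hG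
  set W : ℝ := ∫ x in cap (BB n) v t, inner ℝ v x with hW
  have hWH : W = H := by
    have h1 := sh_eq hcomp v t
    have i1 : IntegrableOn (fun x : E n => (inner ℝ v x : ℝ)) (cap (BB n) v t) :=
      (int_on hcomp (f := fun x : E n => (inner ℝ v x : ℝ)) (by fun_prop)).mono_set (cap_subset v t)
    have i2 : IntegrableOn (fun _ : E n => t) (cap (BB n) v t) :=
      (int_on hcomp (f := fun _ : E n => t) (by fun_prop)).mono_set (cap_subset v t)
    rw [integral_sub i1 i2, setIntegral_const, measureReal_def, hvol,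
      ENNReal.toReal_ofReal hd.le, smul_eq_mul] at h1
    linarith
  set Iv : ℝ := ∫ x : SS n, max (inner ℝ v (x : E n) - t) 0 * (inner ℝ v (x : E n)) ^ 2 ∂(sg n)
    with hIv
  set Iw : ℝ := ∫ x : SS n, max (inner ℝ v (x : E n) - t) 0 * (inner ℝ w (x : E n)) ^ 2 ∂(sg n)
    with hIw
  have hmult : mult t v w 2 = Iv - Iw := by
    unfold mult
    rw [hIv, hIw, ← integral_sub]
    · apply integral_congr_ae
      refine Filter.Eventually.of_forall fun x => ?_
      show max (inner ℝ v (x : E n) - t) 0 *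
        (((inner ℝ v (x : E n) : ℝ) + (inner ℝ w (x : E n) : ℝ) * Complex.I) ^ 2).re = _
      have h1 : (((inner ℝ v (x : E n) : ℝ) + (inner ℝ w (x : E n) : ℝ) * Complex.I) ^ 2 : ℂ).re
        = (inner ℝ v (x : E n)) ^ 2 - (inner ℝ w (x : E n)) ^ 2 := by
        rw [sq, Complex.mul_re]
        simp
        ring
      rw [h1]
      ring
    · apply sg_int
      fun_prop
    · apply sg_int
      fun_prop
  have hGw : G = Iw := by
    have h1 : G - Iw ≤ 0 := by
      apply small_le (C := C)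
      intro s hs0 hs1
      have h2 := hC hw (h := s) (by linarith) (by rw [abs_of_pos hs0]; exact hs1)
      rw [stretch_w hw (by linarith) hvw] at h2
      have h3 := (abs_le.1 h2).2
      have h4 : s * (G - Iw) ≤ s * (C * s) := by
        rw [← hG, ← hIw] at h3
        nlinarith
      exact le_of_mul_le_mul_left h4 hs0
    have h1' : Iw - G ≤ 0 := by
      apply small_le (C := C)
      intro s hs0 hs1
      have h2 := hC hw (h := s) (by linarith) (by rw [abs_of_pos hs0]; exact hs1)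
      rw [stretch_w hw (by linarith) hvw] at h2
      have h3 := (abs_le.1 h2).1
      have h4 : s * (Iw - G) ≤ s * (C * s) := by
        rw [← hG, ← hIw] at h3
        nlinarith
      exact le_of_mul_le_mul_left h4 hs0
    linarith
  have hGv : G + W = Iv := by
    have h1 : G + W - Iv ≤ 0 := by
      apply small_le (C := C + |W|)
      intro s hs0 hs1
      have h2 := hC hv (h := s) (by linarith) (by rw [abs_of_pos hs0]; exact hs1)
      have h3 := (abs_le.1 h2).2
      have h5 := stretch_v hv (h := s) (by linarith) t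
      rw [← hG, ← hW] at h5
      rw [← hIv] at h3
      have h4 : s * (G + W - Iv) ≤ s * ((C + |W|) * s) := by
        nlinarith [neg_abs_le W, sq_nonneg s]
      exact le_of_mul_le_mul_left h4 hs0
    have h1' : Iv - (G + W) ≤ 0 := by
      apply small_le (C := C + |W|)
      intro s hs0 hs1
      have h2 := hC hv (h := -s) (by linarith) (by rw [abs_neg, abs_of_pos hs0]; exact hs1)
      have h3 := (abs_le.1 h2).2
      have h5 := stretch_v hv (h := -s) (by linarith) t
      rw [← hG, ← hW] at h5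
      rw [← hIv] at h3
      have h4 : s * (Iv - (G + W)) ≤ s * ((C + |W|) * s) := by
        nlinarith [neg_abs_le W, sq_nonneg s]
      exact le_of_mul_le_mul_left h4 hs0
    linarith
  rw [hmult, ← hGv, ← hGw, ← hWH]
  ring

end Pool.Agent.Helper92.LR
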